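import Mathlib
import Pool.Agent.Hhelper8.Free
import Pool.Agent.Hhelper8.Statement
import Pool.Agent.Hhelper8.Interface
import Pool.Agent.Hhelper8.Cert.PartA
import Pool.Agent.Hhelper8.Cert.PartV
import Pool.Agent.Hhelper65.B4.Main
import Pool.Agent.Hhelper78.Malcev.PartB1
import Pool.Agent.Hhelper78.Malcev.PartB
import Pool.Agent.Hhelper82.PartD

/-!
# The ideal of identities of the simple seven-dimensional Malcev algebra is a Lie ideal

`F` is a field of characteristic zero, `X` an arbitrary set, `FreeMalcevAlgebra F X` the free
Malcev algebra over `F` on `X` and `identitiesC7 F X` the ideal of identities of the algebra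
`C7Alg F` of trace zero split octonions (with the commutator product) in it. We prove that `J(f,g,h) = 0` for all
`f, g, h` in this ideal.

Outline of the proof.

* (Part A) In every Malcev algebra of characteristic zero put
  `Φ(a,b,c)u = (1/6) (S(a,c,b,u) + S(a,u,b,c) - S(a,b,c,u))` with
  `S(a,b,c,u) = ((ab)c)u - ((ab)u)c + 2(ab)(cu)`. The elements `(Φ(x,y,z)w)w` span an ideal `I`
  (contained in `A A`) with `J(I, A A, A A) = 0`. These identities are checked by the kernel.
* (Part B) Let `V` be the variety of Malcev algebras with `(Φ(x,y,z)w)w = 0`. In a free algebra `G`
  of `V` the operators `θ(x,y)` on `G G` generate a commutative algebra `Γ`, the left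
  multiplications of `G` span a vector product algebra over `Γ`, and a square-zero extension
  of it shows by induction on the degree that all identities of `C7` hold in `V`.
* (Part C) A multilinear identity of `C7` holds in all vector product algebras over commutative
  rings containing the rationals.
* (Part D) Hence `identitiesC7 F X` is contained in `I` and the theorem follows from Part A.
-/

namespace Pool.Agent.Results.MP_10183c_al.LieIdealC7

open Pool.Agent.Hhelper8

universe u v

/-- The ideal of identities of `C7` in the free Malcev algebra over a field of characteristic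
zero is a Lie ideal: the Jacobian of any three of its elements is zero. -/
theorem result (F : Type u) [Field F] [CharZero F] (X : Type v) (f g h : FreeMalcevAlgebra F X)
    (hf : f ∈ identitiesC7 F X) (hg : g ∈ identitiesC7 F X) (hh : h ∈ identitiesC7 F X) :
    J f g h = 0 :=
  Pool.Agent.Hhelper82.PartD.main Chk.partA
    (Pool.Agent.Hhelper78.Malcev.partB Chk.partV Pool.Agent.Hhelper78.Malcev.partB1
      Pool.Agent.Hhelper65.B4.partB4) F X f g h
    (mem_T7_of_mem_identitiesC7 F X f hf) (mem_T7_of_mem_identitiesC7 F X g hg)
    (mem_T7_of_mem_identitiesC7 F X h hh)

end Pool.Agent.Results.MP_10183c_al.LieIdealC7
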